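import Pool.Agent.W902.C6.Ex
import Pool.Agent.W924.C6.MAP
import Pool.Agent.W917.C6.Code
import Pool.Agent.W179.C6.Norm
import Pool.Agent.W724.C6.Par
import Pool.Agent.W351.C6.One
import Pool.Agent.W589.C6.Cnt
import Pool.Agent.W402.C6.Cnt3
import Pool.Agent.W409.C6.Wei
import Pool.Agent.W597.C6.Card
import Pool.Agent.W999.C6.CLS
import Pool.Agent.W382.C6.Read
import Pool.Agent.W919.C6.Let
import Pool.Agent.W418.C6.Conva
import Pool.Agent.W428.C6.ConvB
import Pool.Agent.W359.C6.Lim1
import Pool.Agent.W511.C6.Lim0
import Pool.Agent.W12.C6.Few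
import Pool.Agent.W557.C6.Lim4
import Pool.Agent.W348.C6.Rig2
import Pool.Agent.W12.C6.Real2
import Pool.Agent.W110.C6.Cano
import Pool.Agent.W12.C6.False
import Pool.Agent.W12.C6.Mem
import Pool.Agent.W486.C6.LowTwo

/-!
# MP_639dfe_co, Q2: the number of configurations with no six points in general position

`c_6(n)`, the number of configurations (order types of `n`-point sets of the plane, mirror images
counted separately) without six points in general position, is asymptotically
`n ^ 2 * (1 + sqrt 2) ^ n / 16`.

All but a vanishing proportion of these configurations consist of points on two crossing lines and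
one further point `p`; seen from `p` the points of the two lines form a word in three letters (a
point of the first line, a point of the second line, a pair collinear with `p`), of weights
1, 1, 2, cut at two places (the intersection point of the lines, and a direction).
-/

set_option autoImplicit false

namespace Pool.Agent.Results.MP_639dfe_co.ExactGrowth

open Filter

/-- Points of the plane. -/
abbrev Pt := ℝ × ℝ

/-- Orientation of an ordered triple: `1` counterclockwise, `-1` clockwise, `0` collinear. -/
noncomputable def orient (a b c : Pt) : SignType :=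
  SignType.sign ((b.1 - a.1) * (c.2 - a.2) - (b.2 - a.2) * (c.1 - a.1))

/-- Two finite point sets represent the same configuration: there is a bijection that keeps the
orientation of every ordered triple. -/
def SameConf (P Q : Finset Pt) : Prop :=
  ∃ e : P ≃ Q, ∀ a b c : P, orient (e a) (e b) (e c) = orient a b c

/-- No three points are collinear. -/
def GenPos (P : Finset Pt) : Prop :=
  ∀ a ∈ P, ∀ b ∈ P, ∀ c ∈ P, a ≠ b → b ≠ c → a ≠ c → orient a b c ≠ 0

/-- The configuration classes that contain an `n`-point set in which at most `k - 1` points are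
in general position; a class is given as the set of all point sets representing it. -/
def confs (k n : ℕ) : Set (Set (Finset Pt)) :=
  {c | ∃ S : Finset Pt, S.card = n ∧ (∀ T ⊆ S, GenPos T → T.card < k) ∧
    c = {P | SameConf S P}}

theorem mem_cls {S : Finset Pt} {k : ℕ} (_ : 0 < k) :
    S ∈ Pool.Agent.H800R3.Cls k ↔ ∀ T ⊆ S, GenPos T → T.card < k := by
  have hbdd : BddAbove {m | ∃ T, Pool.Agent.H800R3.SubConf T S ∧ Pool.Agent.H800R3.GenPos T ∧
      T.card = m} := by
    refine ⟨S.card, ?_⟩
    rintro m ⟨T', ⟨S', hS', e, -⟩, -, rfl⟩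
    have h1 : T'.card = S'.card := by
      simpa using Fintype.card_congr e
    rw [h1]
    exact Finset.card_le_card hS'
  constructor
  · intro h T hT hg
    have h1 : T.card ≤ Pool.Agent.H800R3.mg S :=
      le_csSup hbdd ⟨T, Pool.Agent.H800R3.subConf_of_subset hT, hg, rfl⟩
    exact lt_of_le_of_lt h1 h
  · intro h
    show Pool.Agent.H800R3.mg S < k
    have hne : {m | ∃ T, Pool.Agent.H800R3.SubConf T S ∧ Pool.Agent.H800R3.GenPos T ∧
        T.card = m}.Nonempty :=
      ⟨0, ∅, Pool.Agent.H800R3.subConf_of_subset (Finset.empty_subset _),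
        fun a ha => absurd ha (Finset.notMem_empty _), rfl⟩
    obtain ⟨T, ⟨S', hS', e, he⟩, hg, hm⟩ := Nat.sSup_mem hne hbdd
    show sSup _ < k
    rw [← hm]
    have h1 : T.card = S'.card := by
      simpa using Fintype.card_congr e
    rw [h1]
    apply h S' hS'
    intro a ha b hb c hc hab hbc hac
    have h2 := he (e.symm ⟨a, ha⟩) (e.symm ⟨b, hb⟩) (e.symm ⟨c, hc⟩)
    simp only [Equiv.apply_symm_apply] at h2
    show Pool.Agent.H800R3.orient a b c ≠ 0
    rw [h2]
    apply hg _ (e.symm ⟨a, ha⟩).2 _ (e.symm ⟨b, hb⟩).2 _ (e.symm ⟨c, hc⟩).2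
    · intro h3
      have := e.symm.injective (Subtype.ext h3)
      exact hab (congrArg Subtype.val this)
    · intro h3
      have := e.symm.injective (Subtype.ext h3)
      exact hbc (congrArg Subtype.val this)
    · intro h3
      have := e.symm.injective (Subtype.ext h3)
      exact hac (congrArg Subtype.val this)

open Pool.Agent.W902.C6 in
theorem exactC6 : S_exact :=
  exact_of Pool.Agent.W924.C6.MAP.main Pool.Agent.W917.C6.Code.main Pool.Agent.W179.C6.Norm.main
    Pool.Agent.W724.C6.Par.main Pool.Agent.W351.C6.One.main Pool.Agent.W409.C6.Wei.main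
    Pool.Agent.W597.C6.Card.main Pool.Agent.W999.C6.CLS.main Pool.Agent.W382.C6.Read.main
    (Pool.Agent.W402.C6.Cnt3.main Pool.Agent.W589.C6.Cnt.main)
    Pool.Agent.W418.C6.Conva.main Pool.Agent.W428.C6.ConvB.main Pool.Agent.W359.C6.Lim1.main
    Pool.Agent.W511.C6.main
    (Pool.Agent.W557.C6.Lim4.main Pool.Agent.W359.C6.Lim1.main Pool.Agent.W511.C6.main
      Pool.Agent.W12.C6.Few.main)
    Pool.Agent.W348.C6.Rig2.main Pool.Agent.W110.C6.main Pool.Agent.W12.C6.Fa.main
    Pool.Agent.W12.C6.memm Pool.Agent.W12.C6.cwm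
    (Pool.Agent.W486.C6.main Pool.Agent.W12.C6.R2.main Pool.Agent.W597.C6.Card.main
      Pool.Agent.W409.C6.Wei.main Pool.Agent.W919.C6.Let.letm Pool.Agent.W919.C6.Let.headm
      Pool.Agent.W12.C6.memm)

/-- the class of `S` as a set of point sets -/
def toSet (q : Quotient Pool.Agent.W902.C6.confSetoid) : Set (Finset Pt) :=
  {P | Quotient.mk Pool.Agent.W902.C6.confSetoid P = q}

theorem toSet_inj : Function.Injective toSet := by
  intro q q' h
  obtain ⟨S, rfl⟩ := Quotient.exists_rep q
  have : S ∈ toSet (Quotient.mk Pool.Agent.W902.C6.confSetoid S) := rfl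
  rw [h] at this
  exact this

theorem toSet_mk (S : Finset Pt) :
    toSet (Quotient.mk Pool.Agent.W902.C6.confSetoid S) = {P | SameConf S P} := by
  ext P
  constructor
  · intro h
    exact Pool.Agent.W902.C6.sameConf_symm (Pool.Agent.W902.C6.mk_eq.1 h)
  · intro h
    exact Pool.Agent.W902.C6.mk_eq.2 (Pool.Agent.W902.C6.sameConf_symm h)

theorem confs_eq (k n : ℕ) (hk : 0 < k) : confs k n =
    toSet '' Pool.Agent.W902.C6.classes {S | S ∈ Pool.Agent.H800R3.Cls k ∧ S.card = n} := by
  ext c
  constructor
  · rintro ⟨S, h1, h2, rfl⟩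
    exact ⟨_, ⟨S, ⟨(mem_cls hk).2 h2, h1⟩, rfl⟩, toSet_mk S⟩
  · rintro ⟨_, ⟨S, ⟨h2, h1⟩, rfl⟩, rfl⟩
    exact ⟨S, h1, (mem_cls hk).1 h2, toSet_mk S⟩

/-- **Full answer to Q2.** For every `n` there are finitely many configurations of size `n` without
six points in general position, and their number `c_6(n)` satisfies
`c_6(n) / (n ^ 2 * (1 + sqrt 2) ^ n) → 1 / 16`. -/
theorem result : (∀ n, (confs 6 n).Finite) ∧
    Tendsto (fun n : ℕ => ((confs 6 n).ncard : ℝ) / ((n : ℝ) ^ 2 * (1 + Real.sqrt 2) ^ n)) atTop
      (nhds (1 / 16)) := by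
  obtain ⟨h1, h2⟩ := exactC6
  constructor
  · intro n
    rw [confs_eq 6 n (by norm_num)]
    exact (h1 n).image _
  · have e : ∀ n, (confs 6 n).ncard = Pool.Agent.W902.C6.numConf 6 n := by
      intro n
      rw [confs_eq 6 n (by norm_num), Set.ncard_image_of_injective _ toSet_inj]
      rfl
    simp only [e]
    exact h2

end Pool.Agent.Results.MP_639dfe_co.ExactGrowth
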